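import Mathlib

/-!
Idempotent Maltsev algebras with conservative cyclic operations of all small prime arities:
fixed points on quotients of subalgebras, 2-decomposability, Chinese remainder theorem.
-/

namespace H98C

structure Alg (α : Type) : Type 1 where
  C : ∀ κ : Type, ((κ → α) → α) → Prop
  idem : ∀ κ f, C κ f → ∀ x, f (fun _ => x) = x
  m : α → α → α → α
  mC : C (Fin 3) (fun t => m (t 0) (t 1) (t 2))
  m1 : ∀ x y, m x y y = x
  m2 : ∀ x y, m y y x = x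
  hi : ∀ (G : Type) [Group G] [Finite G], (Nat.card G).Prime → Nat.card G ≤ Nat.card α →
    ∃ f, C G f ∧ (∀ t, ∃ k, f t = t k) ∧ ∀ (g : G) (t : G → α), f (fun x => t (g * x)) = f t

variable {α : Type} (A : Alg α)

def Alg.Cl1 (S : α → Prop) : Prop :=
  ∀ κ f, A.C κ f → ∀ s : κ → α, (∀ k, S (s k)) → S (f s)

def Alg.Cl2 (ρ : α → α → Prop) : Prop :=
  ∀ κ f, A.C κ f → ∀ s t : κ → α, (∀ k, ρ (s k) (t k)) → ρ (f s) (f t)

def Alg.Cl3 (T : α → α → α → Prop) : Prop :=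
  ∀ κ f, A.C κ f → ∀ s t u : κ → α, (∀ k, T (s k) (t k) (u k)) → T (f s) (f t) (f u)

def Alg.ClV {V : Type} (R : Set (V → α)) : Prop :=
  ∀ κ f, A.C κ f → ∀ s : κ → V → α, (∀ k, s k ∈ R) → (fun v => f (fun k => s k v)) ∈ R

variable {A}

theorem Alg.Cl2.m {ρ : α → α → Prop} (h : A.Cl2 ρ) {a b c a' b' c' : α} (h1 : ρ a a')
    (h2 : ρ b b') (h3 : ρ c c') : ρ (A.m a b c) (A.m a' b' c') :=
  h _ _ A.mC ![a, b, c] ![a', b', c'] (fun k => by fin_cases k <;> assumption)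

theorem Alg.Cl3.m {T : α → α → α → Prop} (h : A.Cl3 T) {a b c a' b' c' a'' b'' c'' : α}
    (h1 : T a a' a'') (h2 : T b b' b'') (h3 : T c c' c'') :
    T (A.m a b c) (A.m a' b' c') (A.m a'' b'' c'') :=
  h _ _ A.mC ![a, b, c] ![a', b', c'] ![a'', b'', c''] (fun k => by fin_cases k <;> assumption)

/-- Rectangularity. -/
theorem Alg.Cl2.rect {ρ : α → α → Prop} (h : A.Cl2 ρ) {a b c d : α} (h1 : ρ a b) (h2 : ρ c b)
    (h3 : ρ c d) : ρ a d := by
  have := h.m h1 h2 h3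
  rwa [A.m1, A.m2] at this

structure PER (A : Alg α) (θ : α → α → Prop) : Prop where
  cl : A.Cl2 θ
  symm : ∀ {x y}, θ x y → θ y x
  trans : ∀ {x y z}, θ x y → θ y z → θ x z

theorem PER.l {θ : α → α → Prop} (h : PER A θ) {x y : α} (e : θ x y) : θ x x :=
  h.trans e (h.symm e)

theorem PER.r {θ : α → α → Prop} (h : PER A θ) {x y : α} (e : θ x y) : θ y y :=
  h.trans (h.symm e) e

structure Aut (A : Alg α) (θ φ : α → α → Prop) : Prop where
  cl : A.Cl2 φ
  dom : ∀ {x y}, φ x y → θ y y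
  sat : ∀ {x x' y y'}, θ x x' → φ x y → θ y y' → φ x' y'
  tot : ∀ {x}, θ x x → ∃ y, φ x y
  fn : ∀ {x y y'}, φ x y → φ x y' → θ y y'
  inj : ∀ {x x' y}, φ x y → φ x' y → θ x x'

theorem reps [Finite α] {θ : α → α → Prop} (h : PER A θ) :
    ∃ (Q : Type) (_ : Finite Q) (r : Q → α), Nat.card Q ≤ Nat.card α ∧ (∀ q, θ (r q) (r q)) ∧
      (∀ q q', θ (r q) (r q') → q = q') ∧ ∀ x, θ x x → ∃ q, θ (r q) x := by
  let s : Setoid {x // θ x x} := ⟨fun a b => θ a.1 b.1, fun a => a.2, h.symm, h.trans⟩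
  have h2 : ∀ q q' : Quotient s, θ q.out.1 q'.out.1 → q = q' := by
    intro q q' e
    rw [← q.out_eq, ← q'.out_eq]
    exact Quotient.sound e
  refine ⟨Quotient s, inferInstance, fun q => q.out.1, ?_, fun q => q.out.2, h2, fun x hx => ?_⟩
  · exact Nat.card_le_card_of_injective (fun q : Quotient s => q.out.1)
      (fun q q' e => h2 q q' (by have e' : q.out.1 = q'.out.1 := e; rw [e']; exact q'.out.2))
  · exact ⟨Quotient.mk s ⟨x, hx⟩, Quotient.exact (Quotient.out_eq (Quotient.mk s ⟨x, hx⟩))⟩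

theorem fp [Finite α] {θ : α → α → Prop} (h : PER A θ) (hne : ∃ x, θ x x)
    (Γ : Set (α → α → Prop)) (hΓ : ∀ φ ∈ Γ, Aut A θ φ) : ∃ x, θ x x ∧ ∀ φ ∈ Γ, φ x x := by
  obtain ⟨Q, _, r, hcard, hr, hinj, hsur⟩ := reps h
  choose c hc using hsur
  let O : ∀ κ : Type, ((κ → Q) → Q) → Prop :=
    fun κ F => ∃ f, A.C κ f ∧ ∀ t, θ (r (F t)) (f (fun k => r (t k)))
  let G : Subgroup (Equiv.Perm Q) :=
    { carrier := {g | ∀ κ F, O κ F → ∀ t, g (F t) = F (fun k => g (t k))}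
      one_mem' := fun κ F _ t => rfl
      mul_mem' := fun {a b} ha hb κ F hF t => by
        rw [Equiv.Perm.mul_apply, hb κ F hF, ha κ F hF]; rfl
      inv_mem' := fun {a} ha κ F hF t => by
        apply a.injective
        rw [ha κ F hF]
        simp }
  obtain ⟨x0, hx0⟩ := hne
  have hG : ∀ g : G, g = 1 := by
    intro g0
    by_contra hg0
    have h1 : Nat.card G ≠ 1 := fun e =>
      hg0 ((Nat.card_eq_one_iff_unique.1 e).1.elim _ _)
    obtain ⟨p, hp, hd⟩ := Nat.exists_prime_and_dvd h1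
    haveI : Fact p.Prime := ⟨hp⟩
    obtain ⟨g, hg⟩ := exists_prime_orderOf_dvd_card' p hd
    have hne : g ≠ 1 := fun e => by
      rw [e, orderOf_one] at hg
      exact hp.one_lt.ne hg
    obtain ⟨q, hq⟩ : ∃ q, (g : Equiv.Perm Q) q ≠ q := by
      by_contra hcon
      push Not at hcon
      exact hne (Subtype.ext (Equiv.ext hcon))
    let H := Subgroup.zpowers g
    have hH : Nat.card H = p := by rw [Nat.card_zpowers, hg]
    let g1 : H := ⟨g, Subgroup.mem_zpowers g⟩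
    have hst : MulAction.stabilizer H q = ⊥ := by
      haveI : Fact (Nat.card H).Prime := ⟨hH ▸ hp⟩
      rcases (MulAction.stabilizer H q).eq_bot_or_eq_top_of_prime_card with e | e
      · exact e
      · have : g1 ∈ MulAction.stabilizer H q := e ▸ Subgroup.mem_top _
        exact absurd this hq
    have hinjH : Function.Injective fun x : H => x • q := fun x y e => by
      have : y⁻¹ * x ∈ MulAction.stabilizer H q := by
        rw [MulAction.mem_stabilizer_iff, mul_smul, inv_smul_eq_iff]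
        exact e
      rw [hst, Subgroup.mem_bot, inv_mul_eq_one] at this
      exact this.symm
    obtain ⟨f, hf, hcons, hfi⟩ := A.hi H (hH ▸ hp)
      ((Nat.card_le_card_of_injective _ hinjH).trans hcard)
    let F : (H → Q) → Q := fun t => c (f (fun k => r (t k))) (h.cl _ f hf _ _ (fun k => hr _))
    have hF : O H F := ⟨f, hf, fun t => hc _ _⟩
    have e1 : (g : Equiv.Perm Q) (F fun x => x • q) = F fun x => (g1 * x) • q :=
      g.2 H F hF fun x => x • q
    have e2 : F (fun x => (g1 * x) • q) = F fun x => x • q := by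
      refine hinj _ _ (h.trans (hc _ _) (h.symm ?_))
      rw [hfi g1 (fun x => r (x • q))]
      exact hc _ _
    obtain ⟨k, hk⟩ := hcons fun x => r (x • q)
    have e3 : F (fun x => x • q) = k • q := by
      refine hinj _ _ ?_
      rw [← hk]
      exact hc _ _
    rw [e2, e3] at e1
    have e4 : g1 * k = k := hinjH e1
    exact hne (congrArg Subtype.val (mul_eq_right.1 e4))
  let q : Q := c x0 hx0
  have hq : ∀ g : G, g • q = q := fun g => by rw [hG g, one_smul]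
  refine ⟨r q, hr q, fun φ hφ => ?_⟩
  have a := hΓ φ hφ
  have hex : ∀ q, ∃ q', φ (r q) (r q') := by
    intro q
    obtain ⟨y, hy⟩ := a.tot (hr q)
    exact ⟨c y (a.dom hy), a.sat (hr q) hy (h.symm (hc _ _))⟩
  choose u hu using hex
  have hui : Function.Injective u := fun p p' e => hinj _ _ (a.inj (hu p) (e ▸ hu p'))
  let g : Equiv.Perm Q := Equiv.ofBijective u (Finite.injective_iff_bijective.1 hui)
  have hg : g ∈ G := by
    rintro κ F ⟨f, hf, hF⟩ t
    apply hinj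
    refine a.fn (hu (F t)) (a.sat (h.symm (hF t)) ?_ (h.symm (hF _)))
    exact a.cl _ f hf _ _ (fun k => hu (t k))
  have e : u q = q := hq ⟨g, hg⟩
  have := hu q
  rwa [e] at this

/-- No essential triple. -/
theorem tern [Finite α] {T : α → α → α → Prop} (h : A.Cl3 T) {a1 a2 a3 b1 b2 b3 : α}
    (h1 : T b1 a2 a3) (h2 : T a1 b2 a3) (h3 : T a1 a2 b3) : T a1 a2 a3 := by
  let X : α → Prop := fun x => (∃ y, T x y a3) ∧ ∃ z, T x a2 z
  have hX : A.Cl1 X := by
    intro κ f hf s hs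
    choose y hy using fun k => (hs k).1
    choose z hz using fun k => (hs k).2
    have e1 := h κ f hf s y (fun _ => a3) hy
    have e2 := h κ f hf s (fun _ => a2) z hz
    rw [A.idem κ f hf] at e1 e2
    exact ⟨⟨_, e1⟩, ⟨_, e2⟩⟩
  have mv : ∀ {x x' y z y' z'}, T x y z → T x' y z → T x y' z' → T x' y' z' := by
    intro x x' y z y' z' p q s
    have := h.m q p s
    rwa [A.m1, A.m2, A.m2] at this
  let θ : α → α → Prop := fun x x' => X x ∧ X x' ∧ ∃ y z, T x y z ∧ T x' y z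
  have hθ : PER A θ := by
    refine ⟨fun κ f hf s t hs => ⟨hX κ f hf s (fun k => (hs k).1),
      hX κ f hf t (fun k => (hs k).2.1), ?_⟩, fun ⟨p, q, y, z, u, v⟩ => ⟨q, p, y, z, v, u⟩,
      fun ⟨p, _, y, z, u, v⟩ ⟨_, q, y', z', u', v'⟩ => ⟨p, q, y, z, u, mv u' v' v⟩⟩
    choose y z hy hz using fun k => (hs k).2.2
    exact ⟨_, _, h κ f hf s y z hy, h κ f hf t y z hz⟩
  let φ : α → α → Prop := fun x x' => X x ∧ X x' ∧ ∃ z, T x a2 z ∧ T x' b2 z
  have hφ : Aut A θ φ := by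
    refine ⟨fun κ f hf s t hs => ⟨hX κ f hf s (fun k => (hs k).1),
      hX κ f hf t (fun k => (hs k).2.1), ?_⟩, fun ⟨_, q, z, _, v⟩ => ⟨q, q, _, _, v, v⟩,
      fun ⟨_, p, _, _, u, v⟩ ⟨_, _, z, w, w'⟩ ⟨_, q, _, _, u', v'⟩ =>
        ⟨p, q, z, mv u v w, mv u' v' w'⟩, ?_, ?_, ?_⟩
    · choose z hy hz using fun k => (hs k).2.2
      have e1 := h κ f hf s (fun _ => a2) z hy
      have e2 := h κ f hf t (fun _ => b2) z hz
      rw [A.idem κ f hf] at e1 e2
      exact ⟨_, e1, e2⟩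
    · rintro x ⟨p, -, -⟩
      obtain ⟨z, hz⟩ := p.2
      have e := h.m hz h1 h2
      rw [A.m1, A.m2] at e
      refine ⟨_, p, hX _ _ A.mC ![x, b1, a1] (fun k => ?_), z, hz, e⟩
      fin_cases k
      · exact p
      · exact ⟨⟨_, h1⟩, ⟨_, h1⟩⟩
      · exact ⟨⟨_, h2⟩, ⟨_, h3⟩⟩
    · rintro x y y' ⟨-, p, z, u, v⟩ ⟨-, q, z', u', v'⟩
      have e := h.m v' u' u
      rw [A.m1, A.m1, A.m2] at e
      exact ⟨p, q, _, _, v, e⟩
    · rintro x x' y ⟨p, -, z, u, v⟩ ⟨q, -, z', u', v'⟩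
      have e := h.m u' v' v
      rw [A.m1, A.m1, A.m2] at e
      exact ⟨p, q, _, _, u, e⟩
  obtain ⟨x, -, hx⟩ := fp hθ ⟨b1, ⟨⟨_, h1⟩, ⟨_, h1⟩⟩, ⟨⟨_, h1⟩, ⟨_, h1⟩⟩, _, _, h1, h1⟩ {φ}
    (fun ψ hψ => by rw [Set.mem_singleton_iff.1 hψ]; exact hφ)
  obtain ⟨-, -, z, u, v⟩ := hx φ rfl
  have e := h.m h2 v u
  rwa [A.m1, A.m2, A.m1] at e

theorem decomp [Finite α] {V : Type} [Finite V] {R : Set (V → α)} (h : A.ClV R)
    (hne : R.Nonempty) (a : V → α) (ha : ∀ i j, ∃ r ∈ R, r i = a i ∧ r j = a j) : a ∈ R := by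
  classical
  haveI := Fintype.ofFinite V
  have key : ∀ (n : ℕ) (I : Finset V), I.card = n → ∃ r ∈ R, ∀ i ∈ I, r i = a i := by
    intro n
    induction n using Nat.strong_induction_on with
    | _ n ih =>
    intro I hI
    by_cases h3 : 2 < I.card
    · obtain ⟨i1, i2, i3, m1, m2, m3, n12, n13, n23⟩ := Finset.two_lt_card_iff.1 h3
      have er : ∀ i ∈ I, ∃ r ∈ R, ∀ j ∈ I, j ≠ i → r j = a j := by
        intro i hi
        obtain ⟨r, hr, e⟩ := ih _ (hI ▸ Finset.card_erase_lt_of_mem hi) (I.erase i) rfl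
        exact ⟨r, hr, fun j hj hne => e j (Finset.mem_erase.2 ⟨hne, hj⟩)⟩
      obtain ⟨r1, hr1, e1⟩ := er i1 m1
      obtain ⟨r2, hr2, e2⟩ := er i2 m2
      obtain ⟨r3, hr3, e3⟩ := er i3 m3
      let T : α → α → α → Prop := fun x y z => ∃ r ∈ R, r i1 = x ∧ r i2 = y ∧ r i3 = z ∧
        ∀ j ∈ I, j ≠ i1 → j ≠ i2 → j ≠ i3 → r j = a j
      have hT : A.Cl3 T := by
        intro κ f hf s t u hs
        choose r hr p1 p2 p3 p4 using hs
        refine ⟨_, h κ f hf r hr, congrArg f (funext p1), congrArg f (funext p2),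
          congrArg f (funext p3), fun j hj q1 q2 q3 => ?_⟩
        rw [← A.idem κ f hf (a j)]
        exact congrArg f (funext fun k => p4 k j hj q1 q2 q3)
      obtain ⟨r, hr, p1, p2, p3, p4⟩ := tern hT (a1 := a i1) (a2 := a i2) (a3 := a i3)
        ⟨r1, hr1, rfl, e1 _ m2 n12.symm, e1 _ m3 n13.symm, fun j hj q _ _ => e1 j hj q⟩
        ⟨r2, hr2, e2 _ m1 n12, rfl, e2 _ m3 n23.symm, fun j hj _ q _ => e2 j hj q⟩
        ⟨r3, hr3, e3 _ m1 n13, e3 _ m2 n23, rfl, fun j hj _ _ q => e3 j hj q⟩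
      refine ⟨r, hr, fun j hj => ?_⟩
      by_cases q1 : j = i1
      · rw [q1, p1]
      by_cases q2 : j = i2
      · rw [q2, p2]
      by_cases q3 : j = i3
      · rw [q3, p3]
      exact p4 j hj q1 q2 q3
    · have h2 : I.card = 0 ∨ I.card = 1 ∨ I.card = 2 := by omega
      rcases h2 with e | e | e
      · obtain ⟨r, hr⟩ := hne
        exact ⟨r, hr, by simp [Finset.card_eq_zero.1 e]⟩
      · obtain ⟨i, rfl⟩ := Finset.card_eq_one.1 e
        obtain ⟨r, hr, p, -⟩ := ha i i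
        exact ⟨r, hr, by simpa using p⟩
      · obtain ⟨i, j, -, rfl⟩ := Finset.card_eq_two.1 e
        obtain ⟨r, hr, p, q⟩ := ha i j
        exact ⟨r, hr, by simp [p, q]⟩
  obtain ⟨r, hr, e⟩ := key _ Finset.univ rfl
  have : r = a := funext fun i => e i (Finset.mem_univ i)
  exact this ▸ hr

/-- Chinese remainder theorem for closed relations that are total on a closed set `W`. -/
theorem crt [Finite α] {W : α → Prop} (hW : A.Cl1 W) (hne : ∃ x, W x)
    (K : Set ((α → α → Prop) × α)) (hcl : ∀ p ∈ K, A.Cl2 p.1)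
    (htot : ∀ p ∈ K, ∀ x, W x → ∃ y, p.1 x y)
    (hpair : ∀ p ∈ K, ∀ q ∈ K, ∃ x, W x ∧ p.1 x p.2 ∧ q.1 x q.2) :
    ∃ x, W x ∧ ∀ p ∈ K, p.1 x p.2 := by
  classical
  let R : Set (K → α) := {y | ∃ x, W x ∧ ∀ p : K, p.1.1 x (y p)}
  have hR : A.ClV R := by
    intro κ f hf s hs
    choose x hx hy using hs
    exact ⟨f x, hW κ f hf x hx, fun p => hcl p.1 p.2 κ f hf _ _ (fun k => hy k p)⟩
  have ext : ∀ x, W x → ∃ y ∈ R, ∀ p : K, p.1.1 x p.1.2 → y p = p.1.2 := by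
    intro x hx
    choose y hy using fun p : K => htot p.1 p.2 x hx
    refine ⟨fun p => if p.1.1 x p.1.2 then p.1.2 else y p, ⟨x, hx, fun p => ?_⟩,
      fun p hp => if_pos hp⟩
    by_cases e : p.1.1 x p.1.2
    · simp only [if_pos e]; exact e
    · simp only [if_neg e]; exact hy p
  obtain ⟨x, hx, e⟩ := decomp hR
    (by obtain ⟨x, hx⟩ := hne; obtain ⟨y, hy, -⟩ := ext x hx; exact ⟨y, hy⟩) (fun p => p.1.2)
    (fun p q => by
      obtain ⟨x, hx, u, v⟩ := hpair p.1 p.2 q.1 q.2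
      obtain ⟨y, hy, e⟩ := ext x hx
      exact ⟨y, hy, e p u, e q v⟩)
  exact ⟨x, hx, fun p hp => e ⟨p, hp⟩⟩

end H98C
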