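import Pool.Agent.Lib.MP_8f9fef_lc.Cons.Obj

/-!
A natural section on all objects, by induction on the number of classes.
-/

namespace H98C

variable {α : Type} {A : Alg α}

def Natl (s : Obj A → α) (N : ℕ) : Prop :=
  ∀ o o' ρ, o.size ≤ N → o'.size ≤ N → FL o o' ρ → ρ (s o) (s o')

def Phi (s : Obj A → α) (N : ℕ) (o : Obj A) (x : α) : Prop :=
  o.θ x x ∧ ∀ o' ρ, o'.size ≤ N → FL o o' ρ → ρ x (s o')

structure Iso (o o' : Obj A) (ρ : α → α → Prop) : Prop where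
  fl : FL o o' ρ
  tot : ∀ x, o.θ x x → ∃ y, ρ x y
  inj : Inj o ρ
  sur : ∀ y, o'.θ y y → ∃ x, ρ x y

theorem Iso.refl (o : Obj A) : Iso o o o.θ :=
  ⟨FL.refl o, fun x h => ⟨x, h⟩, fun _ _ _ a b => o.per.trans a (o.per.symm b), fun x h => ⟨x, h⟩⟩

theorem Iso.symm {o o' : Obj A} {ρ : α → α → Prop} (h : Iso o o' ρ) :
    Iso o' o (fun y x => ρ x y) :=
  ⟨h.fl.inv h.inj, h.sur, fun _ _ _ a b => h.fl.fn a b, h.tot⟩

theorem Iso.trans {o o1 o2 : Obj A} {ρ τ : α → α → Prop} (h : Iso o o1 ρ) (h' : Iso o1 o2 τ) :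
    Iso o o2 (fun x z => ∃ y, ρ x y ∧ τ y z) := by
  refine ⟨h.fl.comp h.inj h'.fl, fun x hx => ?_, ?_, fun z hz => ?_⟩
  · obtain ⟨y, hy⟩ := h.tot x hx
    obtain ⟨z, hz⟩ := h'.tot y (h.fl.dr hy)
    exact ⟨z, y, hy, hz⟩
  · rintro x x' z ⟨y, a, b⟩ ⟨y', c, d⟩
    exact h.inj _ _ _ (h.fl.sat (h.fl.dl a) a (h'.inj _ _ _ b d)) c
  · obtain ⟨y, hy⟩ := h'.sur z hz
    obtain ⟨x, hx⟩ := h.sur y (h'.fl.dl hy)
    exact ⟨x, y, hx, hy⟩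

theorem Phi.iso {s : Obj A → α} {N : ℕ} {o o' : Obj A} {ρ : α → α → Prop} (h : Iso o o' ρ)
    {x y : α} (r : ρ x y) (hx : Phi s N o x) : Phi s N o' y := by
  refine ⟨h.fl.dr r, fun o2 τ hN hτ => ?_⟩
  obtain ⟨y', a, b⟩ := hx.2 o2 _ hN (h.fl.comp h.inj hτ)
  exact hτ.sat (h.fl.fn a r) b (hτ.dr b)

theorem res_lt [Finite α] {o : Obj A} {W : Set α} (h : Sup o W) {x : α} (hx : o.θ x x)
    (hW : x ∉ W) : (o.res W h).size < o.size := by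
  by_contra hle
  obtain ⟨y, hy⟩ := (((FL.toRes h).count (fun y hy => ⟨y, hy⟩)).2 (not_lt.1 hle)).1 x hx
  exact hW hy.2

theorem Natl.ran [Finite α] {s : Obj A → α} {N : ℕ} (hs : Natl s N) {o o' : Obj A}
    {ρ : α → α → Prop} (h : FL o o' ρ) (hN : o'.size ≤ N) : ∃ x, ρ x (s o') :=
  (hs o' _ _ hN (((FL.toRes h.supRan).count (fun y hy => ⟨y, hy⟩)).1.trans hN)
    (FL.toRes h.supRan)).2

/-- The join of the kernels of two total links. -/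
def join {o o1 o2 : Obj A} {ρ τ : α → α → Prop} (h1 : FL o o1 ρ) (h2 : FL o o2 τ)
    (t1 : ∀ x, o.θ x x → ∃ y, ρ x y) (t2 : ∀ x, o.θ x x → ∃ y, τ x y) : Obj A where
  θ := fun x z => ∃ w a b, ρ x a ∧ ρ w a ∧ τ w b ∧ τ z b
  f := o.f
  per := by
    have cl : A.Cl2 (fun x z => ∃ w a b, ρ x a ∧ ρ w a ∧ τ w b ∧ τ z b) := by
      intro κ f hf s t hs
      choose w a b p q u v using hs
      exact ⟨_, _, _, h1.cl κ f hf _ _ p, h1.cl κ f hf _ _ q, h2.cl κ f hf _ _ u,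
        h2.cl κ f hf _ _ v⟩
    have rf : ∀ x, o.θ x x → ∃ w a b, ρ x a ∧ ρ w a ∧ τ w b ∧ τ x b := by
      intro x hx
      obtain ⟨a, ha⟩ := t1 x hx
      obtain ⟨b, hb⟩ := t2 x hx
      exact ⟨x, a, b, ha, ha, hb, hb⟩
    refine ⟨cl, fun {x y} e => ?_, fun {x y z} e e' => ?_⟩
    · obtain ⟨w, a, b, p, q, u, v⟩ := id e
      exact cl.rect (rf y (h2.dl v)) e (rf x (h1.dl p))
    · obtain ⟨w, a, b, p, q, u, v⟩ := id e
      exact cl.rect e (rf y (h2.dl v)) e'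
  top := by
    have e : {x | ∃ w a b, ρ x a ∧ ρ w a ∧ τ w b ∧ τ x b} = {x | o.θ x x} := by
      ext x
      refine ⟨fun ⟨_, _, _, p, _⟩ => h1.dl p, fun hx => ?_⟩
      obtain ⟨a, ha⟩ := t1 x hx
      obtain ⟨b, hb⟩ := t2 x hx
      exact ⟨x, a, b, ha, ha, hb, hb⟩
    rw [e]
    exact o.top
  bot := o.bot

/-- A total link whose kernel lies in a coarser equivalence on the same domain induces a link
from its target to the coarser object. -/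
theorem down {o o1 z : Obj A} {ρ : α → α → Prop} (h1 : FL o o1 ρ)
    (t1 : ∀ x, o.θ x x → ∃ y, ρ x y) (hf : z.f = o.f) (hd : ∀ x, z.θ x x → o.θ x x)
    (hk : ∀ x x' a, ρ x a → ρ x' a → z.θ x x') :
    FL o1 z (fun y x => ∃ x', ρ x' y ∧ z.θ x' x) := by
  refine ⟨fun κ f hf s t hs => ?_, fun ⟨_, a, _⟩ => h1.dr a, fun ⟨_, _, a⟩ => z.per.r a,
    fun a ⟨x', b, c⟩ d => ⟨x', h1.sat (h1.dl b) b a, z.per.trans c d⟩,
    fun ⟨_, a, b⟩ ⟨_, c, d⟩ => z.per.trans (z.per.symm b) (z.per.trans (hk _ _ _ a c) d),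
    fun U hU => ?_, fun U hU => ?_⟩
  · choose x hx hz using hs
    exact ⟨_, h1.cl κ f hf x s hx, z.per.cl κ f hf x t hz⟩
  · have e : {y | ∃ x x', ρ x' y ∧ z.θ x' x} = {y | ∃ x, ρ x y} := Set.ext fun y =>
      ⟨fun ⟨_, x', a, _⟩ => ⟨x', a⟩, fun ⟨x, a⟩ => ⟨x, x, a, hk _ _ _ a a⟩⟩
    rw [e]
    exact h1.supRan.sup U hU
  · have hs : Sat o1.θ {y | ∃ x ∈ U, ∃ x', ρ x' y ∧ z.θ x' x} :=
      ⟨fun _ ⟨_, _, _, a, _⟩ => h1.dr a,
        fun _ _ e ⟨x, a, x', b, c⟩ => ⟨x, a, x', h1.sat (h1.dl b) b e, c⟩⟩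
    rw [h1.push _ hs, hf]
    have e : {x | ∃ y ∈ {y | ∃ x ∈ U, ∃ x', ρ x' y ∧ z.θ x' x}, ρ x y} = U := by
      ext x
      constructor
      · rintro ⟨y, ⟨u, a, x', b, c⟩, d⟩
        exact hU.2 _ _ (z.per.symm (z.per.trans (hk _ _ _ d b) c)) a
      · intro hx
        obtain ⟨y, hy⟩ := t1 x (hd x (hU.1 x hx))
        exact ⟨y, ⟨x, hx, x, hy, hU.1 x hx⟩, hy⟩
    rw [e]

theorem phi_ne [Finite α] {s : Obj A → α} {N : ℕ} (hs : Natl s N) (o : Obj A)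
    (ho : o.size ≤ N + 1) : ∃ x, Phi s N o x := by
  by_cases hm : ∃ W, Sup o W ∧ ∃ x, o.θ x x ∧ x ∉ W
  · obtain ⟨W, hW, x, hx, hxW⟩ := hm
    have hlt : (o.res W hW).size ≤ N := by have := res_lt hW hx hxW; omega
    exact ⟨s (o.res W hW), (hs _ _ _ hlt hlt (FL.refl _)).1,
      fun o' ρ hN h => (hs _ _ _ hlt hN (h.ofRes hW)).1⟩
  · have tot : ∀ {o' ρ}, FL o o' ρ → ∀ x, o.θ x x → ∃ y, ρ x y := by
      intro o' ρ h x hx
      by_contra hn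
      exact hm ⟨_, h.supDom, x, hx, hn⟩
    obtain ⟨x, hx, h⟩ := crt (A := A) (W := fun x => o.θ x x)
      (fun κ f hf t ht => o.per.cl κ f hf t t ht) o.ne
      {p | ∃ o', o'.size ≤ N ∧ FL o o' p.1 ∧ p.2 = s o'} (fun p ⟨_, _, h, _⟩ => h.cl)
      (fun p ⟨_, _, h, _⟩ => tot h) (by
        rintro ⟨ρ, _⟩ ⟨o1, n1, h1, rfl⟩ ⟨τ, _⟩ ⟨o2, n2, h2, rfl⟩
        let z := join h1 h2 (tot h1) (tot h2)
        have hd : ∀ x, z.θ x x → o.θ x x := fun x ⟨_, _, _, p, _⟩ => h1.dl p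
        have d1 := down (z := z) h1 (tot h1) rfl hd (fun x x' a p q => by
          obtain ⟨b, hb⟩ := tot h2 x' (h1.dl q)
          exact ⟨x', a, b, p, q, hb, hb⟩)
        have d2 := down (z := z) h2 (tot h2) rfl hd (fun x x' b p q => by
          obtain ⟨a, ha⟩ := tot h1 x (h2.dl p)
          exact ⟨x, a, b, ha, ha, p, q⟩)
        have nz : z.size ≤ N := (d1.count (fun x hx => by
          obtain ⟨y, hy⟩ := tot h1 x (hd x hx)
          exact ⟨y, x, hy, hx⟩)).1.trans n1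
        obtain ⟨x1, p1, q1⟩ := hs _ _ _ n1 nz d1
        obtain ⟨x2, p2, q2⟩ := hs _ _ _ n2 nz d2
        obtain ⟨w, a, b, p, q, u, v⟩ := z.per.trans q1 (z.per.symm q2)
        exact ⟨w, h1.dl q, h1.cl.rect q p p1, h2.cl.rect u v p2⟩)
    exact ⟨x, hx, fun o' ρ hN hρ => h (ρ, s o') ⟨o', hN, hρ, rfl⟩⟩

theorem phi_fix [Finite α] {s : Obj A → α} {N : ℕ} (hs : Natl s N) (o : Obj A)
    (ho : o.size ≤ N + 1) : ∃ x, Phi s N o x ∧ ∀ φ, Iso o o φ → φ x x := by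
  have hc : A.Cl1 (Phi s N o) := by
    intro κ f hf t ht
    refine ⟨o.per.cl κ f hf t t (fun k => (ht k).1), fun o' ρ hN h => ?_⟩
    have := h.cl κ f hf t (fun _ => s o') (fun k => (ht k).2 o' ρ hN h)
    rwa [A.idem κ f hf] at this
  have hθ : PER A (fun x y => o.θ x y ∧ Phi s N o x) :=
    ⟨fun κ f hf u t h => ⟨o.per.cl κ f hf u t (fun k => (h k).1), hc κ f hf u (fun k => (h k).2)⟩,
      fun e => ⟨o.per.symm e.1, Phi.iso (Iso.refl o) e.1 e.2⟩,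
      fun e e' => ⟨o.per.trans e.1 e'.1, e.2⟩⟩
  obtain ⟨x0, hx0⟩ := phi_ne hs o ho
  obtain ⟨x, hx, h⟩ := fp hθ ⟨x0, hx0.1, hx0⟩
    {ψ | ∃ φ, Iso o o φ ∧ ψ = fun x y => φ x y ∧ Phi s N o x} (by
      rintro _ ⟨φ, h, rfl⟩
      refine ⟨fun κ f hf u t e => ⟨h.fl.cl κ f hf u t (fun k => (e k).1),
        hc κ f hf u (fun k => (e k).2)⟩, fun e => ⟨h.fl.dr e.1, Phi.iso h e.1 e.2⟩,
        fun a b c => ⟨h.fl.sat a.1 b.1 c.1, Phi.iso (Iso.refl o) a.1 a.2⟩, fun a => ?_,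
        fun a b => ⟨h.fl.fn a.1 b.1, Phi.iso h a.1 a.2⟩, fun a b => ⟨h.inj _ _ _ a.1 b.1, a.2⟩⟩
      obtain ⟨y, hy⟩ := h.tot _ a.1
      exact ⟨y, hy, a.2⟩)
  exact ⟨x, hx.2, fun φ hφ => (h _ ⟨φ, hφ, rfl⟩).1⟩

theorem step [Finite α] {s : Obj A → α} {N : ℕ} (hs : Natl s N) : ∃ s', Natl (A := A) s' (N + 1) := by
  let S : Setoid (Obj A) := ⟨fun o o' => ∃ ρ, Iso o o' ρ, fun o => ⟨_, Iso.refl o⟩,
    fun ⟨_, h⟩ => ⟨_, h.symm⟩, fun ⟨_, h⟩ ⟨_, h'⟩ => ⟨_, h.trans h'⟩⟩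
  let rep : Obj A → Obj A := fun o => (Quotient.mk S o).out
  have hrep : ∀ o, ∃ ρ, Iso (rep o) o ρ := fun o => Quotient.exact (Quotient.out_eq (Quotient.mk S o))
  have hp : ∀ r : Obj A, ∃ x, r.size ≤ N + 1 → Phi s N r x ∧ ∀ φ, Iso r r φ → φ x x := by
    intro r
    by_cases h : r.size ≤ N + 1
    · obtain ⟨x, hx⟩ := phi_fix hs r h
      exact ⟨x, fun _ => hx⟩
    · exact ⟨s r, fun h' => absurd h' h⟩
  choose p hp using hp
  have hsz : ∀ o, (rep o).size ≤ o.size := fun o => by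
    obtain ⟨ρ, h⟩ := hrep o
    exact (h.symm.fl.count h.tot).1
  have ex : ∀ o : Obj A, ∃ y, (o.size ≤ N → y = s o) ∧ (o.size ≤ N + 1 → Phi s N o y) ∧
      (o.size = N + 1 → ∃ ρ, Iso (rep o) o ρ ∧ ρ (p (rep o)) y) := by
    intro o
    by_cases h : o.size = N + 1
    · obtain ⟨ρ, hρ⟩ := hrep o
      have h1 := (hp (rep o) ((hsz o).trans h.le)).1
      obtain ⟨y, hy⟩ := hρ.tot _ h1.1
      exact ⟨y, fun h' => by omega, fun _ => Phi.iso hρ hy h1, fun _ => ⟨ρ, hρ, hy⟩⟩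
    · refine ⟨s o, fun _ => rfl, fun h' => ?_, fun h' => absurd h' h⟩
      have hN : o.size ≤ N := by omega
      exact ⟨hs _ _ _ hN hN (FL.refl o), fun o' ρ n' hρ => hs _ _ _ hN n' hρ⟩
  choose s' h1 h2 h3 using ex
  refine ⟨s', fun o o' ρ n n' h => ?_⟩
  by_cases c : o'.size ≤ N
  · rw [h1 o' c]
    exact (h2 o n).2 o' ρ c h
  by_cases c2 : ∀ y, o'.θ y y → ∃ x, ρ x y
  · obtain ⟨k1, k2⟩ := h.count c2
    obtain ⟨tt, ti⟩ := k2 (by omega)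
    have hi : Iso o o' ρ := ⟨h, tt, ti, c2⟩
    obtain ⟨ρ1, i1, r1⟩ := h3 o (by omega)
    obtain ⟨ρ2, i2, r2⟩ := h3 o' (by omega)
    have e : rep o' = rep o := congrArg Quotient.out (Quotient.sound (s := S) ⟨_, hi.symm⟩)
    rw [e] at i2 r2
    obtain ⟨b, ⟨a, u, v⟩, w⟩ := (hp (rep o) ((hsz o).trans n)).2 _ ((i1.trans hi).trans i2.symm)
    exact h.sat (i1.fl.fn u r1) v (i2.fl.fn w r2)
  · push Not at c2
    obtain ⟨y, hy, hn⟩ := c2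
    have hlt : (o'.res _ h.supRan).size ≤ N := by
      have := res_lt h.supRan hy (fun ⟨x, hx⟩ => hn x hx)
      omega
    have a := (h2 o n).2 _ ρ hlt h.toRan
    have b := (h2 o' n').2 _ _ hlt (FL.toRes h.supRan)
    exact h.sat (h.dl a) a (o'.per.symm b.1)

theorem sec [Finite α] (A : Alg α) :
    ∃ s : Obj A → α, ∀ o o' ρ, FL o o' ρ → ρ (s o) (s o') := by
  have key : ∀ N, ∃ s, Natl (A := A) s N := by
    intro N
    induction N with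
    | zero =>
      refine ⟨fun o => o.ne.choose, fun o o' ρ n _ _ => ?_⟩
      obtain ⟨x, hx⟩ := o.ne
      have : 0 < o.size := (Set.ncard_pos (Set.toFinite _)).2 ⟨_, x, hx, rfl⟩
      omega
    | succ N ih => obtain ⟨s, hs⟩ := ih; exact step hs
  obtain ⟨s, hs⟩ := key (Nat.card (Set α))
  exact ⟨s, fun o o' ρ h => hs o o' ρ (Set.ncard_le_card _) (Set.ncard_le_card _) h⟩

/-- The object of the whole algebra with a function on its subsets. -/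
def ob (A : Alg α) (f : Set α → Prop) (h1 : f Set.univ) (h0 : ¬ f ∅) : Obj A where
  θ := Eq
  f := f
  per := ⟨fun _ f _ _ _ h => congrArg f (funext h), Eq.symm, Eq.trans⟩
  top := by simpa using h1
  bot := h0

theorem link {s : Obj A → α} (hs : ∀ o o' ρ, FL o o' ρ → ρ (s o) (s o')) {β : Type}
    (g : Set β → Prop) (h1 : g Set.univ) (h0 : ¬ g ∅) (u v : β → α)
    (hc : A.Cl2 (fun x y => ∃ b, u b = x ∧ v b = y)) :
    ∃ b, u b = s (ob A (fun U => g (u ⁻¹' U)) h1 h0) ∧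
      v b = s (ob A (fun U => g (v ⁻¹' U)) h1 h0) := by
  let ρ : α → α → Prop := fun x y => ∃ b, u b = x ∧ v b = y
  have hl : PER A (fun y y' => ∃ x, ρ x y ∧ ρ x y') := by
    refine ⟨fun κ f hf a t h => ?_, fun ⟨x, a, b⟩ => ⟨x, b, a⟩,
      fun ⟨x, a, b⟩ ⟨x', c, d⟩ => ⟨x, a, hc.rect b c d⟩⟩
    choose x p q using h
    exact ⟨_, hc κ f hf x a p, hc κ f hf x t q⟩
  let q : Obj A := ⟨fun y y' => ∃ x, ρ x y ∧ ρ x y', fun U => g (v ⁻¹' U), hl, by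
    have e : v ⁻¹' {y | ∃ x, ρ x y ∧ ρ x y} = Set.univ :=
      Set.eq_univ_of_forall fun b => ⟨u b, ⟨b, rfl, rfl⟩, ⟨b, rfl, rfl⟩⟩
    show g _
    rw [e]
    exact h1, h0⟩
  have f1 : FL (ob A (fun U => g (u ⁻¹' U)) h1 h0) q ρ := by
    refine ⟨hc, fun _ => rfl, fun a => ⟨_, a, a⟩, fun a b ⟨x, c, d⟩ => ?_, fun a b => ⟨_, a, b⟩,
      fun U _ => ?_, fun U hU => ?_⟩
    · cases a
      exact hc.rect b c d
    · have e : u ⁻¹' (U ∩ {x | ∃ y, ρ x y}) = u ⁻¹' U := Set.ext fun b =>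
        ⟨fun a => a.1, fun a => ⟨a, _, b, rfl, rfl⟩⟩
      show g _ ↔ g _
      rw [e]
    · have e : u ⁻¹' {x | ∃ y ∈ U, ρ x y} = v ⁻¹' U := Set.ext fun b =>
        ⟨fun ⟨y, a, c⟩ => hU.2 y _ ⟨_, c, b, rfl, rfl⟩ a, fun a => ⟨_, a, b, rfl, rfl⟩⟩
      show g _ ↔ g _
      rw [e]
  have f2 : FL (ob A (fun U => g (v ⁻¹' U)) h1 h0) q q.θ := by
    refine ⟨hl.cl, fun _ => rfl, hl.r, fun a b c => ?_, fun a b => hl.trans (hl.symm a) b,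
      fun U _ => ?_, (FL.refl q).push⟩
    · cases a
      exact hl.trans b c
    · have e : v ⁻¹' (U ∩ {x | ∃ y, q.θ x y}) = v ⁻¹' U := Set.ext fun b =>
        ⟨fun a => a.1, fun a => ⟨a, _, _, ⟨b, rfl, rfl⟩, ⟨b, rfl, rfl⟩⟩⟩
      show g _ ↔ g _
      rw [e]
  obtain ⟨x, a, b⟩ := hs _ _ _ f2
  exact hc.rect (hs _ _ _ f1) b a

end H98C
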