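import Pool.Agent.Lib.MP_8f9fef_lc.Twenty
import Pool.Agent.Lib.MP_8f9fef_lc.Cons.Sec

/-! The tournament and the prime cycles decide all conservative structures. -/

namespace H98C

open H6PP hiding Alg Obj sec ob decomp link core_main

variable {σ : Sig}

theorem cons {B : Str σ} (hB : ∀ U : Set B.D, U.Nonempty → PP B Unit {a | a () ∈ U}) {κ : Type}
    [Nonempty κ] {f : (κ → B.D) → B.D} (hf : Pol B f) (t : κ → B.D) : ∃ k, f t = t k := by
  obtain ⟨k, hk⟩ := (hB (Set.range t) (Set.range_nonempty t)).pres hf (fun k _ => t k)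
    (fun k => ⟨k, rfl⟩)
  exact ⟨k, hk.symm⟩

theorem core_main (B : Str σ) (hB : ∀ U : Set B.D, U.Nonempty → PP B Unit {a | a () ∈ U})
    (hq : Has B SQ) (ha : ∀ (G : Type) [Group G] [Finite G], (Nat.card G).Prime →
      Nat.card G ≤ Nat.card B.D → Has B (SG G G)) : PPC P2 B := by
  classical
  haveI := B.fin
  have hc : ∀ e, Hom B B e → Function.Injective e := by
    intro e he x y hxy
    have k : ∀ z, e z = z := fun z =>
      (cons hB (f := fun t : Unit → B.D => e (t ())) (fun i s hs => he i _ (hs ()))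
        fun _ => z).choose_spec
    rwa [k, k] at hxy
  obtain ⟨m, hm, hS⟩ := idem_of_core hc hq
  let A : H98C.Alg B.D :=
    { C := fun _ f => Pol B f ∧ ∀ x, f (fun _ => x) = x
      idem := fun _ _ h => h.2
      m := fun x y z => m ![x, y, z]
      mC := by
        have e : (fun t : Fin 3 → B.D => m ![t 0, t 1, t 2]) = m := by
          funext t; congr 1; funext k; fin_cases k <;> rfl
        rw [e]; exact hm
      m1 := fun x y => by
        refine Eq.trans ?_ ((hS _ (Or.inl rfl) (fun b => cond b x y)).trans (hm.2 x))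
        congr 1; funext k; fin_cases k <;> rfl
      m2 := fun x y => by
        refine Eq.trans ?_ ((hS _ (Or.inr rfl) (fun b => cond b x y)).trans (hm.2 x))
        congr 1; funext k; fin_cases k <;> rfl
      hi := fun G _ _ hg hX => by
        obtain ⟨f, hf, h⟩ := idem_of_core hc (ha G hg hX)
        exact ⟨f, hf, cons hB hf.1, fun g t => h _ ⟨g, rfl⟩ t⟩ }
  obtain ⟨s, hs⟩ := H98C.sec A
  let s' : (Set B.D → Prop) → B.D := fun f =>
    if h : f Set.univ ∧ ¬ f ∅ then s (H98C.ob A f h.1 h.2) else B.ne.some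
  refine free P2 B (fun F : (B.D → Bool) → Bool =>
    s' (fun U => F (fun x => decide (x ∈ U)) = true)) (fun i (g0 : (B.rel i → Bool) → Bool) hg => ?_)
  obtain ⟨g1, g2⟩ := (pol_P2 g0).1 hg
  let g : Set (B.rel i) → Prop := fun U => g0 (fun b => decide (b ∈ U)) = true
  have h1 : g Set.univ := by simpa [g] using g2
  have h0 : ¬ g ∅ := by simpa [g] using g1
  refine H98C.decomp (A := A) (fun κ f hf t ht => hf.1 i t ht) ?_ _ (fun j l => ?_)
  · by_contra hn
    have : IsEmpty (B.rel i) := ⟨fun r => hn ⟨r.1, r.2⟩⟩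
    exact h0 (Set.eq_empty_of_isEmpty (Set.univ : Set (B.rel i)) ▸ h1)
  · obtain ⟨b, p, q⟩ := H98C.link hs g h1 h0 (fun r => r.1 j) (fun r => r.1 l) (by
      intro κ f hf u v h
      choose b p q using h
      exact ⟨⟨_, hf.1 i (fun k => (b k).1) (fun k => (b k).2)⟩, congrArg f (funext p),
        congrArg f (funext q)⟩)
    have k : ∀ (f : Set B.D → Prop) (a : f Set.univ) (b : ¬ f ∅), s' f = s (H98C.ob A f a b) :=
      fun f a b => dif_pos (And.intro a b)
    exact ⟨b.1, b.2, p.trans (k _ _ _).symm, q.trans (k _ _ _).symm⟩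

theorem good_self (G : Type) [Group G] [Finite G] (hp : (Nat.card G).Prime) : Good G G := by
  haveI : Fact (Nat.card G).Prime := ⟨hp⟩
  haveI : IsSimpleGroup G := isSimpleGroup_of_prime_card (p := Nat.card G) rfl
  have hs : ∀ x : G, MulAction.stabilizer G x = ⊥ := fun x =>
    eq_bot_iff.2 fun g hg => Subgroup.mem_bot.2 (mul_eq_right.1 (show g * x = x from hg))
  refine ⟨inferInstance, fun M => ⟨fun hM => ⟨1, ?_⟩, ?_⟩⟩
  · rw [hs]
    exact (M.eq_bot_or_eq_top_of_prime_card.resolve_right hM.1).symm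
  · rintro ⟨x, rfl⟩
    rw [hs]
    exact ⟨bot_ne_top, fun b hb => b.eq_bot_or_eq_top_of_prime_card.resolve_left hb.ne'⟩

theorem conservative (B : Str σ) (hB : ∀ U : Set B.D, U.Nonempty → PP B Unit {a | a () ∈ U}) :
    ¬ PPC P2 B ↔
      (PPC B T3 ∨ ∃ (p : ℕ) (_ : Fact p.Prime), p ≤ Nat.card B.D ∧ PPC B (Cyc p)) := by
  constructor
  · intro h
    by_contra hn
    rw [not_or] at hn
    refine h (core_main B hB (by_contra fun hq => hn.1 (no_qm B hq)) fun G _ _ hp hle => ?_)
    by_contra hq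
    have hg := good_self G hp
    haveI := hg.1
    haveI : Fact (Nat.card G).Prime := ⟨hp⟩
    obtain ⟨p, hp', h1, h2⟩ := cyc_of_act B G G (isCyclic_of_prime_card (p := Nat.card G) rfl)
      (fun x => by
        obtain ⟨g, hg⟩ := exists_ne (1 : G)
        exact ⟨g, fun e => hg (mul_eq_right.1 (show g * x = x from e))⟩) (no_inv B G G hg hq)
    exact hn.2 ⟨p, hp', h1.trans hle, h2⟩
  · rintro (h | ⟨p, _, -, h⟩) h2
    · exact not_T3 (h.has (h2.has has_P2_SQ))
    · exact not_Cyc p (h.has (h2.has (has_P2_SC p)))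

end H98C
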